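import Pool.Agent.R272.JT.INC
import Pool.Agent.R272.JT.DPHI
import Pool.Agent.R272.JT.DPSI
import Pool.Agent.R272.JT.DK
import Pool.Agent.R272.JT.TAIL
import Pool.Agent.R272.JT.TREE
import Pool.Agent.R272.JT.PSI
import Pool.Agent.R272.JT.PHI
import Pool.Agent.R272.JT.CEX
import Pool.Agent.R272.JT.SPN
import Pool.Agent.R272.JT.LOW
import Pool.Agent.R272.JT.ASM
import Pool.Agent.R272.JT.RAM
import Pool.Agent.R272.JT.SP1
import Pool.Agent.R272.JT.SP2
import Pool.Agent.R272.JT.SP3

/-!
# MP_a1676c_an, Q1: property HIC_{p,d} does not imply Asplund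

The James tree space (all functions `x` on the dyadic tree with finite norm
`sup (∑ |∑_{r ∈ S} x r|²)^{1/2}`, the supremum over finite families of disjoint segments `S`) is a
separable Banach space with nonseparable dual, and it has property `21`-HIC_{2,d}.

Proof (`Pool/Agent/R272/JT/NOTES.md`): iterated limits along an ultrafilter.  A bounded map
`f : [ℕ]^k → JT` is followed on the finitely many branches which carry the atoms of the
superadditive functions `v ↦ lim ‖f(n)|T_v‖²`; on the branches which are new after the choice of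
`n_i` one compares `f(n)` with `f(n')`, where `n'` differs from `n` in the coordinate `i`, which
gives an `ℓ₂`-sum of the `Lip_i(f)`; on the branches present from the start the differences
`f(n) - f(m)` of interlaced tuples have cancelling sums over the blocks.
-/

set_option autoImplicit false
set_option linter.unusedSectionVars false
open Set Filter Topology
open Pool.Agent.R272.JT

namespace Pool.Agent.Results.MP_a1676c_an.JamesTreeHIC

/-- interlaced tuples: `n₁ < m₁ < n₂ < m₂ < ...` (for increasing tuples). -/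
def Interlaced {k : ℕ} (n m : Fin k → ℕ) : Prop := (∀ i, n i < m i) ∧ ∀ i j, i < j → m i < n j

/-- `[M]^k`. -/
def Tup (M : Set ℕ) (k : ℕ) : Set (Fin k → ℕ) := {n | StrictMono n ∧ ∀ i, n i ∈ M}

/-- `H_j(ℕ)`. -/
def HPair {k : ℕ} (j : Fin k) (n m : Fin k → ℕ) : Prop :=
  n ∈ Tup univ k ∧ m ∈ Tup univ k ∧ (∀ i, i ≠ j → n i = m i) ∧ n j < m j

/-- `Lip_j(f)`. -/
noncomputable def LipJ {X : Type} [MetricSpace X] {k : ℕ} (f : (Fin k → ℕ) → X) (j : Fin k) : ℝ :=
  sSup {d | ∃ n m, HPair j n m ∧ d = dist (f n) (f m)}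

/-- bounded on `[ℕ]^k`. -/
def BddMap {X : Type} [MetricSpace X] {k : ℕ} (f : (Fin k → ℕ) → X) : Prop :=
  ∃ C, ∀ n ∈ Tup univ k, ∀ m ∈ Tup univ k, dist (f n) (f m) ≤ C

/-- `λ`-HIC_{p,d}. -/
def HIC (p lam : ℝ) (X : Type) [MetricSpace X] : Prop :=
  ∀ (k : ℕ) (f : (Fin k → ℕ) → X), BddMap f → ∃ M : Set ℕ, M.Infinite ∧
    ∀ n ∈ Tup M k, ∀ m ∈ Tup M k, Interlaced n m →
      dist (f n) (f m) ≤ lam * (∑ j, (LipJ f j) ^ p) ^ (1 / p)

section
variable {X : Type} [NormedAddCommGroup X] [NormedSpace ℝ X]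

theorem LipJ_le {k : ℕ} {f : (Fin k → ℕ) → X} (hf : BddMap f) {j : Fin k} {n m : Fin k → ℕ}
    (h : HPair j n m) : dist (f n) (f m) ≤ LipJ f j := by
  obtain ⟨C, hC⟩ := hf
  refine le_csSup ⟨C, ?_⟩ ⟨n, m, h, rfl⟩
  rintro _ ⟨n, m, h, rfl⟩
  exact hC n h.1 m h.2.1

theorem LipJ_nonneg {k : ℕ} (f : (Fin k → ℕ) → X) (j : Fin k) : 0 ≤ LipJ f j := by
  apply Real.sSup_nonneg
  rintro _ ⟨n, m, h, rfl⟩
  exact dist_nonneg

theorem path_bound {k : ℕ} {f : (Fin k → ℕ) → X} (hf : BddMap f) {n m : Fin k → ℕ}
    (hn : StrictMono n) (hm : StrictMono m) (h : Interlaced n m)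
    (h0 : ∀ j, LipJ f j = 0) : f n = f m := by
  -- `g i` : coordinates `≥ i` from `m`, others from `n`
  let g : ℕ → Fin k → ℕ := fun i j => if i ≤ (j : ℕ) then m j else n j
  have hg : ∀ i, StrictMono (g i) := by
    intro i a b hab
    simp only [g]
    have hab' : (a : ℕ) < b := hab
    split_ifs with h1 h2 h2
    · exact hm hab
    · omega
    · exact (hn hab).trans (h.1 b)
    · exact hn hab
  have hstep : ∀ i, i < k → f (g (i + 1)) = f (g i) := by
    intro i hi
    have hp : HPair (⟨i, hi⟩ : Fin k) (g (i + 1)) (g i) := by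
      refine ⟨⟨hg _, fun _ => mem_univ _⟩, ⟨hg _, fun _ => mem_univ _⟩, ?_, ?_⟩
      · intro j hj
        have : (j : ℕ) ≠ i := fun hh => hj (Fin.ext hh)
        simp only [g]
        split_ifs with h1 h2 h2
        · rfl
        · omega
        · omega
        · rfl
      · simp only [g]
        simp [h.1]
    have h1 := LipJ_le hf hp
    rw [h0] at h1
    exact dist_le_zero.1 h1
  have hall : ∀ i, i ≤ k → f (g i) = f (g 0) := by
    intro i
    induction i with
    | zero => intro _; rfl
    | succ i ih => intro hi; rw [hstep i (by omega), ih (by omega)]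
  have e1 : g k = n := by
    funext j; simp only [g]; rw [if_neg (by have := j.2; omega)]
  have e2 : g 0 = m := by
    funext j; simp [g]
  rw [← e1, ← e2]
  exact hall k le_rfl

/-- entries of generic lists. -/
theorem gen_list : ∀ (r c : ℕ), ∀ᶠ (n : List ℕ) in Uk r, n.length = r ∧ n.Pairwise (· < ·) ∧ ∀ a ∈ n, c < a := by
  intro r
  induction r with
  | zero => intro c; rw [Uk_zero]; simp
  | succ r ih =>
    intro c
    rw [Uk_succ]
    have hgt : ∀ᶠ a in (hyperfilter ℕ : Filter ℕ), c < a := by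
      have : (hyperfilter ℕ : Filter ℕ) ≤ atTop := by
        rw [← Nat.cofinite_eq_atTop]; exact hyperfilter_le_cofinite
      exact this (eventually_gt_atTop c)
    filter_upwards [hgt] with a ha
    filter_upwards [ih a] with n hn
    refine ⟨by simp [hn.1], List.pairwise_cons.2 ⟨fun b hb => hn.2.2 b hb, hn.2.1⟩, ?_⟩
    intro b hb
    rcases List.mem_cons.1 hb with rfl | hb
    · exact ha
    · exact ha.trans (hn.2.2 b hb)

open Classical in
/-- the family on lists. -/
noncomputable def toL (ι : X →ₗ[ℝ] (Nd → ℝ)) {k : ℕ} (f : (Fin k → ℕ) → X) (q : List ℕ) : Nd → ℝ :=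
  if q.length = k ∧ q.Pairwise (· < ·) then ι (f (fun i => q.getD i 0)) else 0

theorem strictMono_getD {q : List ℕ} {k : ℕ} (h : q.length = k ∧ q.Pairwise (· < ·)) :
    StrictMono (fun i : Fin k => q.getD i 0) := by
  intro a b hab
  have ha : (a : ℕ) < q.length := by rw [h.1]; exact a.2
  have hb : (b : ℕ) < q.length := by rw [h.1]; exact b.2
  have := List.pairwise_iff_getElem.1 h.2 a b ha hb hab
  simp only [List.getD_eq_getElem?_getD, List.getElem?_eq_getElem ha, List.getElem?_eq_getElem hb,
    Option.getD_some]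
  exact this

theorem toL_GLip {ι : X →ₗ[ℝ] (Nd → ℝ)} (hι : Rlz X ι) {k : ℕ} {f : (Fin k → ℕ) → X}
    (hf : BddMap f) (l : ℕ → ℝ) (hl : ∀ j : Fin k, l j = LipJ f j) (hl0 : ∀ j, 0 ≤ l j) :
    ∀ (r : ℕ) (s : List ℕ), s.length + r = k →
      GLip r (fun j => l (s.length + j)) (fun q => toL ι f (s ++ q)) := by
  intro r
  induction r with
  | zero => intro s _; trivial
  | succ r ih =>
    intro s hs
    have hgt : ∀ c, ∀ᶠ a in (hyperfilter ℕ : Filter ℕ), c < a := by
      intro c
      have : (hyperfilter ℕ : Filter ℕ) ≤ atTop := by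
        rw [← Nat.cofinite_eq_atTop]; exact hyperfilter_le_cofinite
      exact this (eventually_gt_atTop c)
    have hgs : ∀ᶠ a in (hyperfilter ℕ : Filter ℕ), ∀ b ∈ s, b < a := by
      filter_upwards [hgt s.sum] with a ha b hb
      exact (List.single_le_sum (by simp) b hb).trans_lt ha
    refine ⟨?_, ?_⟩
    · filter_upwards [hgs] with a ha
      filter_upwards [hgt a] with a' ha'
      filter_upwards [gen_list r a'] with n hn
      simp only [add_zero]
      by_cases hsp : s.Pairwise (· < ·)
      · have hA : (s ++ a :: n).length = k ∧ (s ++ a :: n).Pairwise (· < ·) := by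
          refine ⟨by simp [hn.1]; omega, ?_⟩
          rw [List.pairwise_append]
          refine ⟨hsp, List.pairwise_cons.2 ⟨fun b hb => ha'.trans (hn.2.2 b hb), hn.2.1⟩, ?_⟩
          intro x hx y hy
          rcases List.mem_cons.1 hy with rfl | hy
          · exact ha x hx
          · exact (ha x hx).trans (ha'.trans (hn.2.2 y hy))
        have hA' : (s ++ a' :: n).length = k ∧ (s ++ a' :: n).Pairwise (· < ·) := by
          refine ⟨by simp [hn.1]; omega, ?_⟩
          rw [List.pairwise_append]
          refine ⟨hsp, List.pairwise_cons.2 ⟨fun b hb => (hn.2.2 b hb), hn.2.1⟩, ?_⟩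
          intro x hx y hy
          rcases List.mem_cons.1 hy with rfl | hy
          · exact (ha x hx).trans ha'
          · exact (ha x hx).trans (ha'.trans (hn.2.2 y hy))
        unfold toL
        rw [if_pos hA, if_pos hA', ← map_sub, ← (hι.1 _).2, ← dist_eq_norm]
        have hsk : s.length < k := by omega
        have hj : l s.length = LipJ f ⟨s.length, hsk⟩ := hl ⟨s.length, hsk⟩
        rw [hj]
        refine LipJ_le hf ⟨⟨strictMono_getD hA, fun _ => mem_univ _⟩,
          ⟨strictMono_getD hA', fun _ => mem_univ _⟩, ?_, ?_⟩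
        · intro i hi
          have hi' : (i : ℕ) ≠ s.length := fun hh => hi (Fin.ext hh)
          simp only [List.getD_eq_getElem?_getD]
          congr 1
          rcases lt_or_gt_of_ne hi' with h1 | h1
          · rw [List.getElem?_append_left h1, List.getElem?_append_left h1]
          · rw [List.getElem?_append_right h1.le, List.getElem?_append_right h1.le]
            obtain ⟨t, ht⟩ : ∃ t, (i : ℕ) - s.length = t + 1 := ⟨(i : ℕ) - s.length - 1, by omega⟩
            rw [ht, List.getElem?_cons_succ, List.getElem?_cons_succ]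
        · simp only [List.getD_eq_getElem?_getD]
          rw [List.getElem?_append_right le_rfl, List.getElem?_append_right le_rfl]
          simpa using ha'
      · have hB : ∀ a : ℕ, ¬ ((s ++ a :: n).length = k ∧ (s ++ a :: n).Pairwise (· < ·)) := by
          rintro a ⟨-, h2⟩
          exact hsp (List.pairwise_append.1 h2).1
        unfold toL
        rw [if_neg (hB a), if_neg (hB a'), sub_zero, InJ_zero.2]
        exact hl0 _
    · refine Eventually.of_forall fun a => ?_
      have := ih (s ++ [a]) (by simp; omega)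
      have e1 : (fun j => l ((s ++ [a]).length + j)) = fun j => l (s.length + (j + 1)) := by
        funext j; congr 1; simp; omega
      have e2 : (fun q => toL ι f ((s ++ [a]) ++ q)) = fun q => toL ι f (s ++ a :: q) := by
        funext q; simp
      rw [e1, e2] at this
      exact this

theorem inter_ofFn : ∀ (k c : ℕ) (u v : Fin k → ℕ), (∀ i, c ≤ u i) → (∀ i, u i < v i) →
    (∀ i j, i < j → v i < u j) → R272.JT.Inter c (List.ofFn u) (List.ofFn v) := by
  intro k
  induction k with
  | zero => intro c u v _ _ _; simp [R272.JT.Inter]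
  | succ k ih =>
    intro c u v h1 h2 h3
    rw [List.ofFn_succ, List.ofFn_succ]
    refine ⟨h1 0, h2 0, ih _ _ _ ?_ (fun i => h2 _) (fun i j hij => h3 _ _ (by simpa using hij))⟩
    intro i
    exact h3 0 i.succ (Fin.succ_pos i)

theorem toL_ofFn {ι : X →ₗ[ℝ] (Nd → ℝ)} {k : ℕ} (f : (Fin k → ℕ) → X) {n : Fin k → ℕ}
    (hn : StrictMono n) : toL ι f (List.ofFn n) = ι (f n) := by
  unfold toL
  have h : (List.ofFn n).length = k ∧ (List.ofFn n).Pairwise (· < ·) := by
    refine ⟨by simp, ?_⟩
    rw [List.pairwise_ofFn]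
    intro i j hij
    exact hn hij
  rw [if_pos h]
  congr 2
  funext i
  simp

theorem hic (hA : S_ASM) (hR : S_RAM) {ι : X →ₗ[ℝ] (Nd → ℝ)} (hι : Rlz X ι) :
    HIC 2 21 X := by
  intro k f hf
  by_cases h0 : ∀ j, LipJ f j = 0
  · refine ⟨univ, infinite_univ, fun n hn m hm hnm => ?_⟩
    rw [path_bound hf hn.1 hm.1 hnm h0, dist_self]
    have : 0 ≤ ∑ j, LipJ f j ^ (2 : ℝ) :=
      Finset.sum_nonneg fun j _ => Real.rpow_nonneg (LipJ_nonneg f j) _
    positivity
  · push Not at h0
    obtain ⟨j0, hj0⟩ := h0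
    classical
    let l : ℕ → ℝ := fun j => if h : j < k then LipJ f ⟨j, h⟩ else 0
    have hl : ∀ j : Fin k, l j = LipJ f j := fun j => by simp [l]
    have hl0 : ∀ j, 0 ≤ l j := by
      intro j
      simp only [l]
      split_ifs with h
      · exact LipJ_nonneg f _
      · exact le_rfl
    have hlk : ∀ j ≥ k, l j = 0 := fun j hj => by simp only [l]; rw [dif_neg (by omega)]
    set L : ℝ := Real.sqrt (∑ j ∈ Finset.range k, (l j) ^ 2) with hL
    have hsum : ∑ j ∈ Finset.range k, (l j) ^ 2 = ∑ j : Fin k, (LipJ f j) ^ 2 := by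
      rw [Finset.sum_range]
      exact Finset.sum_congr rfl fun j _ => by rw [hl]
    have hLpos : 0 < L := by
      rw [hL]
      apply Real.sqrt_pos.2
      rw [hsum]
      refine Finset.sum_pos' (fun _ _ => sq_nonneg _) ⟨j0, Finset.mem_univ _, ?_⟩
      positivity
    -- boundedness
    obtain ⟨C, hC⟩ := hf
    have hf : BddMap f := ⟨C, hC⟩
    let n0 : Fin k → ℕ := fun i => i
    have hn0 : n0 ∈ Tup univ k := ⟨fun a b h => h, fun _ => mem_univ _⟩
    have hB : Bdd (‖f n0‖ + |C|) (toL ι f) := by
      intro q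
      unfold toL
      split_ifs with h
      · refine ⟨(hι.1 _).1, ?_⟩
        rw [← (hι.1 _).2]
        have h1 := hC _ ⟨strictMono_getD h, fun _ => mem_univ _⟩ n0 hn0
        rw [dist_eq_norm] at h1
        have h2 := norm_le_norm_add_norm_sub' (f fun i => q.getD i 0) (f n0)
        have h3 := le_abs_self C
        linarith
      · refine ⟨InJ_zero.1, ?_⟩
        rw [InJ_zero.2]
        positivity
    have hG := toL_GLip hι hf l hl hl0 k [] (by simp)
    simp only [List.length_nil, zero_add, List.nil_append] at hG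
    have hev := hA k l _ (toL ι f) hl0 hlk hB hG L hLpos
    obtain ⟨φ, hφ, hP⟩ := hR k (fun n m => nrm (toL ι f n - toL ι f m) ≤
      20 * Real.sqrt (∑ j ∈ Finset.range k, (l j) ^ 2) + L) hev
    refine ⟨range φ, infinite_range_of_injective hφ.injective, fun n hn m hm hnm => ?_⟩
    choose u hu using hn.2
    choose v hv using hm.2
    have huv : ∀ i, u i < v i := fun i => by
      rw [← hφ.lt_iff_lt, hu, hv]; exact hnm.1 i
    have hvu : ∀ i j, i < j → v i < u j := fun i j hij => by
      rw [← hφ.lt_iff_lt, hu, hv]; exact hnm.2 i j hij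
    have h1 := hP (List.ofFn u) (List.ofFn v) (by simp)
      (inter_ofFn k 0 u v (fun _ => Nat.zero_le _) huv hvu)
    have e1 : (List.ofFn u).map φ = List.ofFn n := by
      rw [List.map_ofFn]; congr 1; funext i; exact hu i
    have e2 : (List.ofFn v).map φ = List.ofFn m := by
      rw [List.map_ofFn]; congr 1; funext i; exact hv i
    simp only [e1, e2] at h1
    rw [toL_ofFn f hn.1, toL_ofFn f hm.1, ← map_sub, ← (hι.1 _).2, ← dist_eq_norm] at h1
    refine h1.trans (le_of_eq ?_)
    have e3 : (∑ j, LipJ f j ^ (2 : ℝ)) ^ (1 / (2 : ℝ)) = L := by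
      rw [hL, hsum, Real.sqrt_eq_rpow]
      simp
    rw [e3, ← hL]
    ring

end

/-- Asplund: every separable closed subspace has separable dual. -/
def Asplund (X : Type) [NormedAddCommGroup X] [NormedSpace ℝ X] : Prop :=
  ∀ Y : Submodule ℝ X, IsClosed (Y : Set X) → TopologicalSpace.SeparableSpace Y →
    TopologicalSpace.SeparableSpace (Y →L[ℝ] ℝ)

theorem not_asplund {X : Type} [NormedAddCommGroup X] [NormedSpace ℝ X]
    (h1 : TopologicalSpace.SeparableSpace X)
    (h2 : ¬ TopologicalSpace.SeparableSpace (X →L[ℝ] ℝ)) : ¬ Asplund X := by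
  intro h
  have h3 : TopologicalSpace.SeparableSpace ((⊤ : Submodule ℝ X) →L[ℝ] ℝ) := by
    apply h ⊤ isClosed_univ
    have : TopologicalSpace.SeparableSpace (univ : Set X) := by
      exact (TopologicalSpace.isSeparable_univ_iff.2 h1).separableSpace
    exact this
  apply h2
  let i : X →L[ℝ] (⊤ : Submodule ℝ X) := (ContinuousLinearMap.id ℝ X).codRestrict ⊤ (fun _ => trivial)
  let Φ : ((⊤ : Submodule ℝ X) →L[ℝ] ℝ) → (X →L[ℝ] ℝ) := fun g => g.comp i
  have hΦc : Continuous Φ := by
    exact (ContinuousLinearMap.compL ℝ X (⊤ : Submodule ℝ X) ℝ).flip i |>.continuous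
  have hΦs : Function.Surjective Φ := by
    intro g
    refine ⟨g.comp (Submodule.subtypeL _), ?_⟩
    ext x
    rfl
  exact hΦs.denseRange.separableSpace hΦc

theorem final (hA : S_ASM) (hR : S_RAM) (h1 : S_SP1) (h2 : S_SP2) (h3 : S_SP3) :
    ∃ (X : Type) (_ : NormedAddCommGroup X) (_ : NormedSpace ℝ X), CompleteSpace X ∧
      ¬ FiniteDimensional ℝ X ∧ HIC 2 21 X ∧ ¬ Asplund X := by
  obtain ⟨X, i1, i2, ι, hc, hι⟩ := h1
  have hsep := h2 X ι hι
  have hns := h3 X ι hι
  refine ⟨X, i1, i2, hc, ?_, hic hA hR hι, not_asplund hsep hns⟩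
  intro hfd
  apply hns
  have : FiniteDimensional ℝ (X →L[ℝ] ℝ) := inferInstance
  have hp : ProperSpace (X →L[ℝ] ℝ) := FiniteDimensional.proper ℝ _
  exact inferInstance

/-- **Theorem.** There are an infinite-dimensional real Banach space `X` and `p ∈ (1, ∞)` (namely
`p = 2`, `X` the James tree space) such that `X` has property `21`-HIC_{p,d} and `X` is not
Asplund: it has a separable closed subspace whose dual is not separable (`X` itself). -/
theorem result : ∃ (X : Type) (_ : NormedAddCommGroup X) (_ : NormedSpace ℝ X),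
    CompleteSpace X ∧ ¬ FiniteDimensional ℝ X ∧ HIC 2 21 X ∧ ¬ Asplund X := by
  have hINC : S_INC := INC.main
  have hTAIL : S_TAIL := TAIL.main hINC
  have hPSI : S_PSI := PSI.main hINC (DPSI.main) hTAIL TREE.main
  have hPHI : S_PHI := PHI.main hINC (DPHI.main) hTAIL TREE.main hPSI
  have hSPN : S_SPN := SPN.main hINC DK.main hTAIL
  have hASM : S_ASM := ASM.main hINC hPHI hSPN (CEX.main hTAIL) LOW.main
  exact final hASM RAM.main SP1.main (SP2.main hTAIL) (SP3.main hTAIL)

end Pool.Agent.Results.MP_a1676c_an.JamesTreeHIC
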